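import Pool.Agent.Y360.RR.Stm

/-!
# The generating function of `V` on the whole disc, and its value at real points
-/

set_option autoImplicit false

open Filter Topology Finset

namespace Pool.Agent.Y571.RR

open Pool.Agent.Y360.RR

theorem f_lb (s θ : ℝ) : 2 * Real.cosh s - 2 ≤ f s θ := by
  unfold f
  linarith [Real.cos_le_one (2 * Real.pi * θ)]

theorem cosh_pos' {s : ℝ} (hs : 0 < s) : 0 < 2 * Real.cosh s - 2 := by
  have := Real.one_lt_cosh.2 (ne_of_gt hs)
  linarith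

theorem f_pos {s : ℝ} (hs : 0 < s) (θ : ℝ) : 0 < f s θ := lt_of_lt_of_le (cosh_pos' hs) (f_lb s θ)

theorem cosh_mono {s s' : ℝ} (hs : 0 < s) (h : s ≤ s') : Real.cosh s ≤ Real.cosh s' := by
  rw [Real.cosh_le_cosh, abs_of_pos hs, abs_of_pos (hs.trans_le h)]
  exact h

/-- A product over one block is at least `4`. -/
theorem block (hP : S_PROD) (hL : S_LIP) (t : ℝ) (q : ℕ) (p : ℤ) (hq : 0 < q)
    (hc : IsCoprime p (q : ℤ)) (herr : |(q : ℝ) * t - p| ≤ 1 / (q : ℝ)) (s0 : ℝ) (hs0 : 0 < s0)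
    (hbig : 4 * Real.exp (2 * Real.pi / s0) ≤ 2 * Real.cosh (q * s0) - 2) (s : ℝ) (hs : s0 ≤ s)
    (θ : ℝ) : 4 ≤ ∏ i ∈ range q, f s (θ + i * t) := by
  have hs' : 0 < s := hs0.trans_le hs
  have hqR : (0 : ℝ) < q := by exact_mod_cast hq
  have h1 : ∀ i ∈ range q, f s (θ + i * (p / q)) * Real.exp (-(2 * Real.pi / s * (1 / q))) ≤
      f s (θ + i * t) := by
    intro i hi
    have hi' : (i : ℝ) ≤ q := by exact_mod_cast (Finset.mem_range.1 hi).le
    have hl := hL s hs' (θ + i * (p / q)) (i * (t - p / q))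
    have e1 : θ + i * (p / q) + i * (t - p / q) = θ + i * t := by ring
    rw [e1] at hl
    have hd : |(i : ℝ) * (t - p / q)| ≤ 1 / q := by
      have e2 : (i : ℝ) * (t - p / q) = (i / q) * (q * t - p) := by
        field_simp
      rw [e2, abs_mul]
      have h3 : |(i : ℝ) / q| ≤ 1 := by
        rw [abs_of_nonneg (by positivity)]
        exact (div_le_one hqR).2 hi'
      calc |(i : ℝ) / q| * |(q : ℝ) * t - p| ≤ 1 * |(q : ℝ) * t - p| :=
            mul_le_mul_of_nonneg_right h3 (abs_nonneg _)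
        _ ≤ 1 / q := by rw [one_mul]; exact herr
    have h4 : 2 * Real.pi / s * |(i : ℝ) * (t - p / q)| ≤ 2 * Real.pi / s * (1 / q) :=
      mul_le_mul_of_nonneg_left hd (by positivity)
    have h5 := (abs_le.1 (hl.trans h4)).1
    have h6 : Real.log (f s (θ + i * (p / q))) + (-(2 * Real.pi / s * (1 / q))) ≤
        Real.log (f s (θ + i * t)) := by linarith
    have h7 := Real.exp_le_exp.2 h6
    rw [Real.exp_add, Real.exp_log (f_pos hs' _), Real.exp_log (f_pos hs' _)] at h7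
    exact h7
  have h2 := Finset.prod_le_prod (fun i _ => by
    have := f_pos hs' (θ + i * (p / q))
    positivity) h1
  rw [Finset.prod_mul_distrib, hP q p hq hc s θ, Finset.prod_const, Finset.card_range,
    ← Real.exp_nat_mul] at h2
  have e3 : (q : ℝ) * -(2 * Real.pi / s * (1 / q)) = -(2 * Real.pi / s) := by
    field_simp
  rw [e3] at h2
  refine le_trans ?_ h2
  have h3 : 2 * Real.cosh (q * s0) - 2 ≤ f (q * s) (q * θ) := by
    refine le_trans ?_ (f_lb _ _)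
    have : Real.cosh (q * s0) ≤ Real.cosh (q * s) :=
      cosh_mono (by positivity) (mul_le_mul_of_nonneg_left hs hqR.le)
    linarith
  have h4 : Real.exp (-(2 * Real.pi / s0)) ≤ Real.exp (-(2 * Real.pi / s)) := by
    apply Real.exp_le_exp.2
    have : 2 * Real.pi / s ≤ 2 * Real.pi / s0 :=
      div_le_div_of_nonneg_left (by positivity) hs0 hs
    linarith
  calc (4 : ℝ) = 4 * Real.exp (2 * Real.pi / s0) * Real.exp (-(2 * Real.pi / s0)) := by
        rw [mul_assoc, ← Real.exp_add, add_neg_cancel, Real.exp_zero, mul_one]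
    _ ≤ f (q * s) (q * θ) * Real.exp (-(2 * Real.pi / s)) :=
        mul_le_mul (hbig.trans h3) h4 (Real.exp_pos _).le
          ((by positivity : (0 : ℝ) ≤ 4 * Real.exp (2 * Real.pi / s0)).trans (hbig.trans h3))

/-- Exponential decay of the inverse products. -/
theorem decay (hP : S_PROD) (hL : S_LIP) (hC : S_CF) (t : ℝ) (ht : Irrational t) (s0 : ℝ)
    (hs0 : 0 < s0) : ∃ C r : ℝ, 0 < C ∧ 0 < r ∧ r < 1 ∧ ∀ (s : ℝ), s0 ≤ s → ∀ (θ : ℝ) (n : ℕ),
      ∏ i ∈ range n, (f s (θ + i * t))⁻¹ ≤ C * r ^ n := by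
  obtain ⟨q, p, hA⟩ := hC t ht
  have hqk : ∀ k, k ≤ q k := fun k => hA.mono.id_le k
  have htend : Tendsto (fun k : ℕ => Real.exp (s0 * k)) atTop atTop :=
    Real.tendsto_exp_atTop.comp (tendsto_natCast_atTop_atTop.const_mul_atTop hs0)
  obtain ⟨k, hk⟩ := (htend.eventually_ge_atTop (4 * Real.exp (2 * Real.pi / s0) + 2)).exists
  set Q : ℕ := q k with hQ
  have hQ0 : 0 < Q := by
    have : q 0 ≤ q k := hA.mono.monotone (Nat.zero_le k)
    rw [hA.q0] at this
    exact this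
  have hQR : (0 : ℝ) < Q := by exact_mod_cast hQ0
  have herr : |(Q : ℝ) * t - p k| ≤ 1 / (Q : ℝ) := by
    refine (hA.err k).trans ?_
    apply one_div_le_one_div_of_le hQR
    have : q k ≤ q (k + 1) := (hA.mono (Nat.lt_succ_self k)).le
    exact_mod_cast this
  have hbig : 4 * Real.exp (2 * Real.pi / s0) ≤ 2 * Real.cosh (Q * s0) - 2 := by
    have h1 : Real.exp (s0 * k) ≤ Real.exp (Q * s0) := by
      apply Real.exp_le_exp.2
      rw [mul_comm]
      apply mul_le_mul_of_nonneg_right _ hs0.le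
      exact_mod_cast hqk k
    have h2 : Real.exp (Q * s0) ≤ 2 * Real.cosh (Q * s0) := by
      rw [Real.cosh_eq]
      linarith [Real.exp_pos (-(Q * s0))]
    linarith
  set m0 : ℝ := 2 * Real.cosh s0 - 2 with hm0
  have hm0p : 0 < m0 := cosh_pos' hs0
  set M : ℝ := max 1 m0⁻¹ with hM
  have hM1 : 1 ≤ M := le_max_left _ _
  set r : ℝ := (1 / 4 : ℝ) ^ ((1 : ℝ) / Q) with hr
  have hr0 : 0 < r := by positivity
  have hrQ : r ^ Q = 1 / 4 := by
    rw [hr, ← Real.rpow_natCast, ← Real.rpow_mul (by norm_num)]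
    rw [one_div_mul_cancel hQR.ne', Real.rpow_one]
  have hr1 : r < 1 := by
    apply Real.rpow_lt_one (by norm_num) (by norm_num)
    positivity
  refine ⟨M ^ Q * (r ^ Q)⁻¹, r, by positivity, hr0, hr1, ?_⟩
  intro s hs θ n
  have hs' : 0 < s := hs0.trans_le hs
  have hfi : ∀ θ, (f s θ)⁻¹ ≤ M := by
    intro θ
    refine le_trans ?_ (le_max_right _ _)
    apply inv_anti₀ hm0p
    refine le_trans ?_ (f_lb s θ)
    have := cosh_mono hs0 hs
    linarith
  induction n using Nat.strong_induction_on generalizing θ with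
  | _ n ih =>
    by_cases hn : n < Q
    · calc ∏ i ∈ range n, (f s (θ + i * t))⁻¹ ≤ ∏ i ∈ range n, M :=
            Finset.prod_le_prod (fun i _ => (inv_pos.2 (f_pos hs' _)).le) (fun i _ => hfi _)
        _ = M ^ n := by rw [Finset.prod_const, Finset.card_range]
        _ ≤ M ^ Q := pow_le_pow_right₀ hM1 hn.le
        _ = M ^ Q * (r ^ Q)⁻¹ * r ^ Q := by
            rw [mul_assoc, inv_mul_cancel₀ (by positivity), mul_one]
        _ ≤ M ^ Q * (r ^ Q)⁻¹ * r ^ n :=
            mul_le_mul_of_nonneg_left (pow_le_pow_of_le_one hr0.le hr1.le hn.le) (by positivity)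
    · have hn' : Q ≤ n := not_lt.1 hn
      obtain ⟨j, rfl⟩ := Nat.exists_eq_add_of_le hn'
      rw [Finset.prod_range_add]
      have h1 : ∏ i ∈ range Q, (f s (θ + i * t))⁻¹ ≤ 1 / 4 := by
        rw [Finset.prod_inv_distrib, one_div]
        apply inv_anti₀ (by norm_num)
        exact block hP hL t Q (p k) hQ0 (hA.cop k) herr s0 hs0 hbig s hs θ
      have h2 := ih j (by omega) (θ + Q * t)
      have h3 : ∏ i ∈ range j, (f s (θ + ((Q + i : ℕ) : ℝ) * t))⁻¹ =
          ∏ i ∈ range j, (f s (θ + Q * t + i * t))⁻¹ := by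
        apply Finset.prod_congr rfl
        intro i _
        congr 2
        push_cast
        ring
      rw [h3]
      calc (∏ i ∈ range Q, (f s (θ + i * t))⁻¹) * ∏ i ∈ range j, (f s (θ + Q * t + i * t))⁻¹
          ≤ (1 / 4) * (M ^ Q * (r ^ Q)⁻¹ * r ^ j) :=
            mul_le_mul h1 h2 (Finset.prod_nonneg fun i _ => (inv_pos.2 (f_pos hs' _)).le)
              (by norm_num)
        _ = M ^ Q * (r ^ Q)⁻¹ * r ^ (Q + j) := by
            rw [pow_add, hrQ]; ring

theorem e_add (a b : ℝ) : e (a + b) = e a * e b := by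
  unfold e
  rw [← Complex.exp_add]
  congr 1
  push_cast
  ring

theorem e_pow (t : ℝ) (n : ℕ) : e t ^ n = e (n * t) := by
  unfold e
  rw [← Complex.exp_nat_mul]
  congr 1
  push_cast
  ring

theorem e_inv (t : ℝ) : (e t)⁻¹ = e (-t) := by
  unfold e
  rw [← Complex.exp_neg]
  congr 1
  push_cast
  ring

theorem e_norm (t : ℝ) : ‖e t‖ = 1 := Complex.norm_exp_ofReal_mul_I _

theorem e_re (t : ℝ) : (e t).re = Real.cos (2 * Real.pi * t) := Complex.exp_ofReal_mul_I_re _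

theorem e_im (t : ℝ) : (e t).im = Real.sin (2 * Real.pi * t) := Complex.exp_ofReal_mul_I_im _

theorem e_ne_one (t : ℝ) (ht : Irrational t) (n : ℕ) (hn : 0 < n) : e t ^ n ≠ 1 := by
  intro h
  rw [e_pow] at h
  unfold e at h
  rw [Complex.exp_eq_one_iff] at h
  obtain ⟨k, hk⟩ := h
  have h2 : ((n * t : ℝ) : ℂ) = (k : ℂ) := by
    have h3 : (2 * Real.pi * Complex.I) ≠ 0 := Complex.two_pi_I_ne_zero
    apply mul_right_cancel₀ h3
    rw [← hk]
    push_cast
    ring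
  have h4 : (n : ℝ) * t = k := by exact_mod_cast h2
  have h5 : Irrational ((n : ℝ) * t) := ht.natCast_mul hn.ne'
  rw [h4] at h5
  exact h5 ⟨k, by simp⟩

/-- the basic identity -/
theorem norm_sq_f (s θ : ℝ) : ‖1 - (Real.exp (-s) : ℂ) * e θ‖ ^ 2 = Real.exp (-s) * f s θ := by
  rw [Complex.sq_norm, Complex.normSq_apply]
  have h1 : (1 - (Real.exp (-s) : ℂ) * e θ).re = 1 - Real.exp (-s) * Real.cos (2 * Real.pi * θ) := by
    rw [Complex.sub_re, Complex.re_ofReal_mul, e_re, Complex.one_re]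
  have h2 : (1 - (Real.exp (-s) : ℂ) * e θ).im = - (Real.exp (-s) * Real.sin (2 * Real.pi * θ)) := by
    rw [Complex.sub_im, Complex.im_ofReal_mul, e_im, Complex.one_im, zero_sub]
  rw [h1, h2]
  unfold f
  rw [Real.cosh_eq]
  have h3 : Real.exp (-s) * Real.exp s = 1 := by rw [← Real.exp_add]; simp
  have h4 := Real.sin_sq_add_cos_sq (2 * Real.pi * θ)
  have h5 : Real.exp (-s) * (2 * ((Real.exp s + Real.exp (-s)) / 2) -
      2 * Real.cos (2 * Real.pi * θ)) = Real.exp (-s) * Real.exp s + Real.exp (-s) ^ 2 -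
      2 * Real.exp (-s) * Real.cos (2 * Real.pi * θ) := by ring
  rw [h5, h3]
  have h6 : (1 - Real.exp (-s) * Real.cos (2 * Real.pi * θ)) *
      (1 - Real.exp (-s) * Real.cos (2 * Real.pi * θ)) +
      -(Real.exp (-s) * Real.sin (2 * Real.pi * θ)) *
      -(Real.exp (-s) * Real.sin (2 * Real.pi * θ)) =
      1 - 2 * Real.exp (-s) * Real.cos (2 * Real.pi * θ) + Real.exp (-s) ^ 2 *
      (Real.sin (2 * Real.pi * θ) ^ 2 + Real.cos (2 * Real.pi * θ) ^ 2) := by ring
  rw [h6, h4]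
  ring

/-- the terms -/
noncomputable def T (x u : ℂ) (g : ℕ) : ℂ :=
  u ^ g * ∏ i ∈ range (2 * g + 1), (1 - u * x ^ i * x⁻¹ ^ g)⁻¹

theorem factor_norm (t : ℝ) (i g : ℕ) : ‖(e t) ^ i * (e t)⁻¹ ^ g‖ = 1 := by
  rw [norm_mul, norm_pow, norm_pow, norm_inv, e_norm]
  simp

theorem factor_ne (t : ℝ) (u : ℂ) (hu : ‖u‖ < 1) (i g : ℕ) :
    1 - u * (e t) ^ i * (e t)⁻¹ ^ g ≠ 0 := by
  intro h
  have h1 : u * (e t) ^ i * (e t)⁻¹ ^ g = 1 := (sub_eq_zero.1 h).symm
  have h2 : ‖u * (e t) ^ i * (e t)⁻¹ ^ g‖ = 1 := by rw [h1, norm_one]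
  rw [mul_assoc, norm_mul, factor_norm, mul_one] at h2
  linarith

/-- bound in the small disc -/
theorem T_small (t : ℝ) (u : ℂ) (hu : ‖u‖ ≤ 1 / 16) (g : ℕ) :
    ‖T (e t) u g‖ ≤ (16 / 15) * (16 / 225) ^ g := by
  unfold T
  rw [norm_mul, norm_pow, norm_prod]
  have h1 : ∏ i ∈ range (2 * g + 1), ‖(1 - u * (e t) ^ i * (e t)⁻¹ ^ g)⁻¹‖ ≤
      ∏ i ∈ range (2 * g + 1), (16 / 15 : ℝ) := by
    apply Finset.prod_le_prod (fun i _ => norm_nonneg _)
    intro i _
    rw [norm_inv]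
    have h2 : (15 / 16 : ℝ) ≤ ‖1 - u * (e t) ^ i * (e t)⁻¹ ^ g‖ := by
      have h3 := norm_sub_norm_le (1 : ℂ) (u * (e t) ^ i * (e t)⁻¹ ^ g)
      rw [norm_one, mul_assoc, norm_mul, factor_norm, mul_one] at h3
      rw [mul_assoc]
      linarith
    calc ‖1 - u * (e t) ^ i * (e t)⁻¹ ^ g‖⁻¹ ≤ (15 / 16 : ℝ)⁻¹ := inv_anti₀ (by norm_num) h2
      _ = 16 / 15 := by norm_num
  rw [Finset.prod_const, Finset.card_range] at h1
  calc ‖u‖ ^ g * ∏ i ∈ range (2 * g + 1), ‖(1 - u * (e t) ^ i * (e t)⁻¹ ^ g)⁻¹‖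
      ≤ (1 / 16) ^ g * (16 / 15 : ℝ) ^ (2 * g + 1) :=
        mul_le_mul (pow_le_pow_left₀ (norm_nonneg _) hu g) h1
          (Finset.prod_nonneg fun i _ => norm_nonneg _) (by positivity)
    _ = (16 / 15) * (16 / 225) ^ g := by
        rw [pow_add, pow_mul, pow_one, ← mul_assoc, ← mul_pow]
        norm_num
        ring

/-- bound in the annulus -/
theorem T_large (t : ℝ) (s0 C r : ℝ) (hC : 0 < C) (hr : 0 < r)
    (hdec : ∀ (s : ℝ), s0 ≤ s → ∀ (θ : ℝ) (n : ℕ), ∏ i ∈ range n, (f s (θ + i * t))⁻¹ ≤ C * r ^ n)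
    (u : ℂ) (hu : 1 / 16 ≤ ‖u‖) (hu2 : ‖u‖ ≤ Real.exp (-s0)) (hu3 : ‖u‖ < 1) (g : ℕ) :
    ‖T (e t) u g‖ ≤ 4 * Real.sqrt (C * r) * r ^ g := by
  have hup : 0 < ‖u‖ := lt_of_lt_of_le (by norm_num) hu
  set s : ℝ := -Real.log ‖u‖ with hs
  have hsu : Real.exp (-s) = ‖u‖ := by rw [hs, neg_neg, Real.exp_log hup]
  have hs0 : s0 ≤ s := by
    have := Real.log_le_log hup hu2
    rw [Real.log_exp] at this
    rw [hs]
    linarith
  have hs' : 0 < s := by
    rw [hs]
    have := Real.log_neg hup hu3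
    linarith
  set φ : ℝ := Complex.arg u / (2 * Real.pi) with hφ
  have hue : u = (‖u‖ : ℂ) * e φ := by
    unfold e
    have h1 : 2 * Real.pi * φ = Complex.arg u := by
      rw [hφ]; field_simp
    rw [h1]
    exact (Complex.norm_mul_exp_arg_mul_I u).symm
  have hfac : ∀ i : ℕ, ‖1 - u * (e t) ^ i * (e t)⁻¹ ^ g‖ ^ 2 = ‖u‖ * f s (φ - g * t + i * t) := by
    intro i
    have h1 : u * (e t) ^ i * (e t)⁻¹ ^ g = (Real.exp (-s) : ℂ) * e (φ - g * t + i * t) := by
      conv_lhs => rw [hue]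
      rw [hsu, e_inv, e_pow, e_pow, mul_assoc, mul_assoc, ← e_add, ← e_add]
      congr 2
      ring
    rw [h1, norm_sq_f, hsu]
  have hsq : ‖T (e t) u g‖ ^ 2 ≤ (4 * Real.sqrt (C * r) * r ^ g) ^ 2 := by
    unfold T
    rw [norm_mul, norm_pow, norm_prod, mul_pow, ← Finset.prod_pow]
    have h2 : ∏ i ∈ range (2 * g + 1), ‖(1 - u * (e t) ^ i * (e t)⁻¹ ^ g)⁻¹‖ ^ 2 =
        (‖u‖⁻¹) ^ (2 * g + 1) * ∏ i ∈ range (2 * g + 1), (f s (φ - g * t + i * t))⁻¹ := by
      rw [← Finset.card_range (2 * g + 1), ← Finset.prod_const, Finset.card_range,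
        ← Finset.prod_mul_distrib]
      apply Finset.prod_congr rfl
      intro i _
      rw [norm_inv, inv_pow, hfac i, mul_inv]
    rw [h2]
    have h3 : (‖u‖ ^ g) ^ 2 * (‖u‖⁻¹ ^ (2 * g + 1) *
        ∏ i ∈ range (2 * g + 1), (f s (φ - g * t + i * t))⁻¹) =
        ‖u‖⁻¹ * ∏ i ∈ range (2 * g + 1), (f s (φ - g * t + i * t))⁻¹ := by
      have h5 : (‖u‖ ^ g) ^ 2 * ‖u‖⁻¹ ^ (2 * g + 1) = ‖u‖⁻¹ := by
        rw [← pow_mul, mul_comm g 2, inv_pow, pow_succ]
        have : ‖u‖ ^ (2 * g) ≠ 0 := by positivity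
        field_simp
      rw [← mul_assoc, h5]
    rw [h3]
    have h4 : ‖u‖⁻¹ ≤ 16 := by
      calc ‖u‖⁻¹ ≤ (1 / 16 : ℝ)⁻¹ := inv_anti₀ (by norm_num) hu
        _ = 16 := by norm_num
    calc ‖u‖⁻¹ * ∏ i ∈ range (2 * g + 1), (f s (φ - g * t + i * t))⁻¹
        ≤ 16 * (C * r ^ (2 * g + 1)) :=
          mul_le_mul h4 (hdec s hs0 (φ - g * t) (2 * g + 1))
            (Finset.prod_nonneg fun i _ => (inv_pos.2 (f_pos hs' _)).le) (by norm_num)
      _ = (4 * Real.sqrt (C * r) * r ^ g) ^ 2 := by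
          rw [mul_pow, mul_pow, Real.sq_sqrt (by positivity), pow_succ, pow_mul']
          ring
  exact (pow_le_pow_iff_left₀ (norm_nonneg _) (by positivity) (by norm_num)).1 hsq

theorem Phi_eq (x u : ℂ) : Phi x u = ∑' g : ℕ, T x u g := rfl

/-- `Phi` is holomorphic in every smaller disc. -/
theorem Phi_diff (hP : S_PROD) (hL : S_LIP) (hC : S_CF) (t : ℝ) (ht : Irrational t) (s0 : ℝ)
    (hs0 : 0 < s0) : DifferentiableOn ℂ (Phi (e t)) (Metric.ball 0 (Real.exp (-s0))) ∧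
      ∀ u ∈ Metric.ball (0 : ℂ) (Real.exp (-s0)), Summable (fun g => T (e t) u g) := by
  obtain ⟨C, r, hC0, hr0, hr1, hdec⟩ := decay hP hL hC t ht s0 hs0
  have hsum : Summable (fun g : ℕ => (16 / 15 : ℝ) * (16 / 225) ^ g +
      4 * Real.sqrt (C * r) * r ^ g) := by
    apply Summable.add
    · exact (summable_geometric_of_lt_one (by norm_num) (by norm_num)).mul_left _
    · exact (summable_geometric_of_lt_one hr0.le hr1).mul_left _
  have hlt : Real.exp (-s0) < 1 := Real.exp_lt_one_iff.2 (by linarith)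
  have hbd : ∀ (g : ℕ) (u : ℂ), u ∈ Metric.ball (0 : ℂ) (Real.exp (-s0)) →
      ‖T (e t) u g‖ ≤ (16 / 15 : ℝ) * (16 / 225) ^ g + 4 * Real.sqrt (C * r) * r ^ g := by
    intro g u hu
    rw [Metric.mem_ball, dist_zero_right] at hu
    by_cases h : ‖u‖ ≤ 1 / 16
    · have := T_small t u h g
      have h2 : 0 ≤ 4 * Real.sqrt (C * r) * r ^ g := by positivity
      linarith
    · have := T_large t s0 C r hC0 hr0 hdec u (not_le.1 h).le hu.le (hu.trans hlt) g
      have h2 : (0 : ℝ) ≤ (16 / 15 : ℝ) * (16 / 225) ^ g := by positivity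
      linarith
  refine ⟨?_, ?_⟩
  · have h := Complex.differentiableOn_tsum_of_summable_norm (F := fun g u => T (e t) u g)
      (U := Metric.ball (0 : ℂ) (Real.exp (-s0))) hsum ?_ Metric.isOpen_ball hbd
    · exact h
    · intro g
      unfold T
      apply DifferentiableOn.mul
      · fun_prop
      · apply DifferentiableOn.fun_finsetProd
        intro i _
        apply DifferentiableOn.inv
        · fun_prop
        · intro u hu
          rw [Metric.mem_ball, dist_zero_right] at hu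
          exact factor_ne t u (hu.trans hlt) i g
  · intro u hu
    exact Summable.of_norm_bounded hsum (fun g => hbd g u hu)

/-- the power series on the whole disc -/
theorem series (hG : S_GEN) (hP : S_PROD) (hL : S_LIP) (hC : S_CF) (t : ℝ) (ht : Irrational t)
    (s : ℝ) (hs : 0 < s) :
    HasSum (fun n : ℕ => (V (e t) n : ℂ) * (Real.exp (-s) : ℂ) ^ n)
      (Phi (e t) (Real.exp (-s) : ℂ)) := by
  obtain ⟨hd, _⟩ := Phi_diff hP hL hC t ht (s / 4) (by linarith)
  set R : NNReal := ⟨Real.exp (-(s / 2)), (Real.exp_pos _).le⟩ with hR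
  have hR0 : 0 < R := Real.exp_pos _
  have hRlt : (R : ℝ) < Real.exp (-(s / 4)) := Real.exp_lt_exp.2 (by linarith)
  have hd2 : DifferentiableOn ℂ (Phi (e t)) (Metric.closedBall 0 R) :=
    hd.mono (Metric.closedBall_subset_ball hRlt)
  have hps := hd2.hasFPowerSeriesOnBall hR0
  have hps2 : HasFPowerSeriesAt (Phi (e t))
      (FormalMultilinearSeries.ofScalars ℂ (fun n => (V (e t) n : ℂ))) 0 := by
    rw [hasFPowerSeriesAt_iff]
    filter_upwards [Metric.ball_mem_nhds (0 : ℂ) (show (0 : ℝ) < 1 / 16 by norm_num)] with z hz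
    rw [Metric.mem_ball, dist_zero_right] at hz
    have h := hG (e t) (e_norm t) (e_ne_one t ht) z hz
    rw [zero_add]
    refine h.congr_fun ?_
    intro n
    rw [FormalMultilinearSeries.coeff_ofScalars, smul_eq_mul, mul_comm]
  have heq := hps.hasFPowerSeriesAt.eq_formalMultilinearSeries hps2
  have hmem : (Real.exp (-s) : ℂ) ∈ Metric.eball (0 : ℂ) R := by
    rw [Metric.mem_eball, edist_lt_coe, ← NNReal.coe_lt_coe, coe_nndist, dist_zero_right,
      Complex.norm_of_nonneg (Real.exp_pos _).le]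
    exact Real.exp_lt_exp.2 (by linarith)
  have hfin := hps.hasSum hmem
  rw [zero_add, heq] at hfin
  refine hfin.congr_fun ?_
  intro n
  rw [FormalMultilinearSeries.apply_eq_pow_smul_coeff, FormalMultilinearSeries.coeff_ofScalars,
    smul_eq_mul, mul_comm]

theorem fac2 (s t : ℝ) (k : ℕ) : (1 - (Real.exp (-s) : ℂ) * (e t) ^ k) *
    (1 - (Real.exp (-s) : ℂ) * (e t)⁻¹ ^ k) = ((Real.exp (-s) * f s (k * t) : ℝ) : ℂ) := by
  rw [e_inv, e_pow, e_pow]
  have h1 : e (k * -t) = (starRingEnd ℂ) (e (k * t)) := by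
    unfold e
    rw [← Complex.exp_conj, map_mul, Complex.conj_ofReal, Complex.conj_I]
    congr 1
    push_cast
    ring
  rw [h1]
  have h2 : (1 - (Real.exp (-s) : ℂ) * (starRingEnd ℂ) (e (k * t))) =
      (starRingEnd ℂ) (1 - (Real.exp (-s) : ℂ) * e (k * t)) := by
    rw [map_sub, map_mul, map_one, Complex.conj_ofReal]
  rw [h2, Complex.mul_conj, Complex.normSq_eq_norm_sq, norm_sq_f]

theorem prodT (s t : ℝ) (g : ℕ) :
    ∏ i ∈ range (2 * g + 1), (1 - (Real.exp (-s) : ℂ) * (e t) ^ i * (e t)⁻¹ ^ g) =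
      (((1 - Real.exp (-s)) * ∏ i ∈ range g, (Real.exp (-s) * f s ((i + 1) * t)) : ℝ) : ℂ) := by
  induction g with
  | zero => simp
  | succ g ih =>
    have hx : e t ≠ 0 := by
      intro h
      have := e_norm t
      rw [h, norm_zero] at this
      exact zero_ne_one this
    rw [show 2 * (g + 1) + 1 = (2 * g + 1 + 1) + 1 by ring, Finset.prod_range_succ,
      Finset.prod_range_succ']
    have h1 : ∏ k ∈ range (2 * g + 1),
        (1 - (Real.exp (-s) : ℂ) * e t ^ (k + 1) * (e t)⁻¹ ^ (g + 1)) =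
        ∏ i ∈ range (2 * g + 1), (1 - (Real.exp (-s) : ℂ) * (e t) ^ i * (e t)⁻¹ ^ g) := by
      apply Finset.prod_congr rfl
      intro k _
      congr 1
      rw [pow_succ, pow_succ]
      field_simp
    rw [h1, ih]
    have h2 : (Real.exp (-s) : ℂ) * e t ^ (2 * g + 1 + 1) * (e t)⁻¹ ^ (g + 1) =
        (Real.exp (-s) : ℂ) * (e t) ^ (g + 1) := by
      rw [show 2 * g + 1 + 1 = (g + 1) + (g + 1) by ring, pow_add, inv_pow]
      have : e t ^ (g + 1) ≠ 0 := pow_ne_zero _ hx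
      field_simp
    rw [h2, pow_zero, mul_one, mul_assoc _ (1 - (Real.exp (-s) : ℂ) * (e t)⁻¹ ^ (g + 1)),
      mul_comm (1 - (Real.exp (-s) : ℂ) * (e t)⁻¹ ^ (g + 1)), fac2, Finset.prod_range_succ]
    push_cast
    ring

theorem T_real (s t : ℝ) (hs : 0 < s) (g : ℕ) :
    T (e t) (Real.exp (-s) : ℂ) g =
      (((1 - Real.exp (-s))⁻¹ * ∏ i ∈ range g, (f s ((i + 1) * t))⁻¹ : ℝ) : ℂ) := by
  unfold T
  rw [Finset.prod_inv_distrib, prodT, ← Complex.ofReal_pow, ← Complex.ofReal_inv,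
    ← Complex.ofReal_mul]
  congr 1
  rw [Finset.prod_mul_distrib, Finset.prod_const, Finset.card_range, mul_inv, mul_inv,
    Finset.prod_inv_distrib]
  have h1 : Real.exp (-s) ^ g ≠ 0 := by positivity
  generalize (1 - Real.exp (-s))⁻¹ = A
  generalize (∏ i ∈ range g, f s ((i + 1) * t))⁻¹ = D
  field_simp

/-- task TRACE -/
theorem t_TRACE (hG : S_GEN) (hP : S_PROD) (hL : S_LIP) (hC : S_CF) : S_TRACE := by
  intro t ht s hs
  have hlt : Real.exp (-s) < 1 := Real.exp_lt_one_iff.2 (by linarith)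
  have hser := series hG hP hL hC t ht s hs
  have h1 : Summable (fun g : ℕ => ∏ i ∈ range g, (f s ((i + 1) * t))⁻¹) := by
    obtain ⟨C, r, hC0, hr0, hr1, hdec⟩ := decay hP hL hC t ht s hs
    refine Summable.of_nonneg_of_le
      (fun g => Finset.prod_nonneg fun i _ => (inv_pos.2 (f_pos hs _)).le) ?_
      ((summable_geometric_of_lt_one hr0.le hr1).mul_left C)
    intro g
    have := hdec s le_rfl t g
    refine le_trans (le_of_eq ?_) this
    apply Finset.prod_congr rfl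
    intro i _
    congr 2
    ring
  have h2 : Phi (e t) (Real.exp (-s) : ℂ) =
      (((1 - Real.exp (-s))⁻¹ * ∑' g : ℕ, ∏ i ∈ range g, (f s ((i + 1) * t))⁻¹ : ℝ) : ℂ) := by
    rw [Phi_eq, ← tsum_mul_left, Complex.ofReal_tsum]
    exact tsum_congr (fun g => T_real s t hs g)
  rw [h2] at hser
  have h3 : (fun n : ℕ => (V (e t) n : ℂ) * (Real.exp (-s) : ℂ) ^ n) =
      (fun n : ℕ => ((V (e t) n * Real.exp (-(s * n)) : ℝ) : ℂ)) := by
    funext n
    rw [← Complex.ofReal_pow, ← Complex.ofReal_mul, ← Real.exp_nat_mul]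
    congr 3
    ring
  rw [h3, Complex.hasSum_ofReal] at hser
  refine ⟨hser.summable, h1, ?_⟩
  rw [hser.tsum_eq, ← mul_assoc, mul_inv_cancel₀ (by linarith), one_mul]

end Pool.Agent.Y571.RR
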